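import Pool.Agent.H39.MonoR.A
import Pool.Agent.H39.MonoR.B1

/-!
# MONO, module B2: the strata of the arcs of `f + u v`
-/

set_option autoImplicit false

namespace Pool.Agent.H39.MonoR

open MvPolynomial

section B2

variable {k : Type} [Field k] [Algebra k ℂ] {σ : Type}

theorem IsCons.prod {ι κ : Type} {A : Set (ι → ℂ)} {B : Set (κ → ℂ)} (hA : IsCons k A)
    (hB : IsCons k B) :
    IsCons k {φ : ι ⊕ κ → ℂ | (fun i => φ (Sum.inl i)) ∈ A ∧ (fun i => φ (Sum.inr i)) ∈ B} :=
  (hA.reindex Sum.inl).inter (hB.reindex Sum.inr)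

theorem isCons_eq_zero {ι : Type} (i : ι) : IsCons k {x : ι → ℂ | x i = 0} := by
  have h := IsCons.zero (k := k) (X i : MvPolynomial ι k)
  simpa using h

theorem isCons_ne_zero {ι : Type} (i : ι) : IsCons k {x : ι → ℂ | x i ≠ 0} := by
  have h := (isCons_eq_zero (k := k) i).compl
  exact h

/-- evaluation of `f + u v` -/
theorem arcEval_stab {N : ℕ} (φ : (σ ⊕ Bool) × Fin N → ℂ) (f : MvPolynomial σ k) :
    arcEval k φ (stab k f) = arcEval k (fun p : σ × Fin N => φ (Sum.inl p.1, p.2)) f +
      arc φ (Sum.inr true) * arc φ (Sum.inr false) := by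
  unfold arcEval stab
  rw [map_add, map_mul, aeval_rename, aeval_X, aeval_X]
  rfl

/-- the low coefficients of `f(φ(t))` only depend on the low coefficients of `φ` -/
theorem coeff_arcEval_congr {N N' : ℕ} (f : MvPolynomial σ k) (φ : σ × Fin N → ℂ)
    (ψ : σ × Fin N' → ℂ) (i : ℕ)
    (h : ∀ j, ∀ l < i, PowerSeries.coeff l (arc φ j) = PowerSeries.coeff l (arc ψ j))
    {l : ℕ} (hl : l < i) :
    PowerSeries.coeff l (arcEval k φ f) = PowerSeries.coeff l (arcEval k ψ f) := by
  have h1 := arcEval_congr f (arc φ) (arc ψ) i (fun j => by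
    rw [PowerSeries.X_pow_dvd_iff]
    intro m hm
    rw [map_sub, h j m hm, sub_self])
  rw [PowerSeries.X_pow_dvd_iff] at h1
  have h2 := h1 l hl
  rw [map_sub, sub_eq_zero] at h2
  exact h2

/-- B1: cylinders -/
theorem cl_Cy [Finite σ] {N i : ℕ} (hi : i ≤ N) (f : MvPolynomial σ k) :
    cl k (Cy k N i f) = cl k (Y k i 0 f) * L k ^ (Nat.card σ * (N - i)) := by
  let e : (σ × Fin i) ⊕ (σ × Fin (N - i)) → σ × Fin N :=
    Sum.elim (fun p => (p.1, ⟨p.2, lt_of_lt_of_le p.2.2 hi⟩))
      (fun p => (p.1, ⟨i + p.2, by have := p.2.2; omega⟩))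
  have hmem : ∀ x : σ × Fin N → ℂ, x ∈ Cy k N i f ↔
      (fun p : σ × Fin i => x (e (Sum.inl p))) ∈ Y k i 0 f := by
    intro x
    have hc : ∀ l < i, PowerSeries.coeff l (arcEval k x f) =
        PowerSeries.coeff l (arcEval k (fun p : σ × Fin i => x (e (Sum.inl p))) f) := by
      intro l hl
      refine coeff_arcEval_congr f x _ i ?_ hl
      intro j m hm
      rw [coeff_arc, coeff_arc, dif_pos hm, dif_pos (lt_of_lt_of_le hm hi)]
      rfl
    constructor
    · intro hx l hl
      rw [← hc l hl, hx l hl]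
      simp
    · intro hx l hl
      rw [hc l hl, hx l hl]
      simp
  have h1 : cl k (Cy k N i f) = cl k {φ : (σ × Fin i) ⊕ (σ × Fin (N - i)) → ℂ |
      (fun p => φ (Sum.inl p)) ∈ Y k i 0 f ∧ (fun p => φ (Sum.inr p)) ∈ Set.univ} := by
    refine cl_reindex (isCons_Cy N i f) ((isCons_Y i 0 f).prod IsCons.univ) e ?_
    refine ⟨?_, ?_, ?_⟩
    · intro x hx
      exact ⟨(hmem x).1 hx, Set.mem_univ _⟩
    · intro x _ y _ hxy
      funext p
      obtain ⟨j, l, hl⟩ := p
      by_cases hli : l < i
      · have := congrFun hxy (Sum.inl (j, ⟨l, hli⟩))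
        exact this
      · have := congrFun hxy (Sum.inr (j, ⟨l - i, by omega⟩))
        have e1 : e (Sum.inr (j, ⟨l - i, by omega⟩)) = (j, ⟨l, hl⟩) := by
          simp only [e, Sum.elim_inr, Prod.mk.injEq, Fin.mk.injEq, true_and]
          omega
        simp only [e1] at this
        exact this
    · intro χ hχ
      let x : σ × Fin N → ℂ := fun p => if h : (p.2 : ℕ) < i then χ (Sum.inl (p.1, ⟨p.2, h⟩))
        else χ (Sum.inr (p.1, ⟨p.2 - i, by have := p.2.2; omega⟩))
      have hx : (fun j => x (e j)) = χ := by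
        funext p
        rcases p with ⟨j, l⟩ | ⟨j, l⟩
        · simp [x, e]
        · simp [x, e]
      refine ⟨x, ?_, hx⟩
      rw [hmem]
      have : (fun p : σ × Fin i => x (e (Sum.inl p))) = fun p => χ (Sum.inl p) := by
        funext p
        exact congrFun hx (Sum.inl p)
      rw [this]
      exact hχ.1
  rw [h1, cl_prod (isCons_Y i 0 f) IsCons.univ, cl_univ]
  simp

/-- B2: the stratum `ord u = i` -/
theorem cl_Str [Finite σ] {N : ℕ} (i : Fin N) (c : k) (f : MvPolynomial σ k) :
    cl k (Str i c f) = (L k - 1) * L k ^ (N - 1) * cl k (Cy k N i f) := by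
  have hN : (i : ℕ) < N := i.2
  let z : Fin (N - i) := ⟨0, by omega⟩
  let e : (σ × Fin N) ⊕ (Fin (N - i) ⊕ Fin i) → (σ ⊕ Bool) × Fin N :=
    Sum.elim (fun p => (Sum.inl p.1, p.2))
      (Sum.elim (fun l => (Sum.inr true, ⟨i + l, by have := l.2; omega⟩))
        (fun l => (Sum.inr false, ⟨N - i + l, by have := l.2; omega⟩)))
  have h1 : cl k (Str i c f) = cl k {φ : (σ × Fin N) ⊕ (Fin (N - i) ⊕ Fin i) → ℂ |
      (fun p => φ (Sum.inl p)) ∈ Cy k N i f ∧
      (fun p => φ (Sum.inr p)) ∈ {x : Fin (N - i) ⊕ Fin i → ℂ | x (Sum.inl z) ≠ 0}} := by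
    refine cl_reindex (isCons_Str i c f) ((isCons_Cy N i f).prod (isCons_ne_zero _)) e ?_
    refine ⟨?_, ?_, ?_⟩
    · rintro x ⟨hx, hx0, hxi⟩
      have hu : PowerSeries.X ^ (i : ℕ) ∣ arc x (Sum.inr true) := by
        rw [PowerSeries.X_pow_dvd_iff]
        intro m hm
        rw [coeff_arc, dif_pos (by omega)]
        exact hx0 ⟨m, by omega⟩ hm
      refine ⟨?_, ?_⟩
      · intro l hl
        have h2 := hx l (by omega)
        rw [arcEval_stab, map_add, if_neg (by omega)] at h2
        have h3 : PowerSeries.coeff l (arc x (Sum.inr true) * arc x (Sum.inr false)) = 0 :=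
          (PowerSeries.X_pow_dvd_iff.1 (hu.mul_right _)) l hl
        rw [h3, add_zero] at h2
        exact h2
      · have : e (Sum.inr (Sum.inl z)) = (Sum.inr true, i) := by
          simp [e, z]
        show x (e (Sum.inr (Sum.inl z))) ≠ 0
        rw [this]
        exact hxi
    · rintro x ⟨hx, hx0, hxi⟩ y ⟨hy, hy0, hyi⟩ hxy
      have ef : ∀ (j : σ) (l : Fin N), x (Sum.inl j, l) = y (Sum.inl j, l) := fun j l =>
        congrFun hxy (Sum.inl (j, l))
      have eu : ∀ l : Fin N, x (Sum.inr true, l) = y (Sum.inr true, l) := by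
        intro l
        by_cases hl : l < i
        · rw [hx0 l hl, hy0 l hl]
        · have h2 := congrFun hxy (Sum.inr (Sum.inl ⟨l - i, by have := l.2; omega⟩))
          have e1 : e (Sum.inr (Sum.inl ⟨l - i, by have := l.2; omega⟩)) = (Sum.inr true, l) := by
            simp only [e, Sum.elim_inr, Sum.elim_inl, Prod.mk.injEq, true_and, Fin.ext_iff]
            have : (i : ℕ) ≤ l := not_lt.1 hl
            omega
          simp only [e1] at h2
          exact h2
      have eu' : arc x (Sum.inr true) = arc y (Sum.inr true) := by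
        ext l
        rw [coeff_arc, coeff_arc]
        by_cases hl : l < N
        · rw [dif_pos hl, dif_pos hl, eu]
        · rw [dif_neg hl, dif_neg hl]
      have hu : PowerSeries.X ^ (i : ℕ) ∣ arc x (Sum.inr true) := by
        rw [PowerSeries.X_pow_dvd_iff]
        intro m hm
        rw [coeff_arc, dif_pos (by omega)]
        exact hx0 ⟨m, by omega⟩ hm
      obtain ⟨u0, hu0⟩ := hu
      have hunit : IsUnit u0 := by
        rw [PowerSeries.isUnit_iff_constantCoeff, ← PowerSeries.coeff_zero_eq_constantCoeff_apply]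
        have h2 : PowerSeries.coeff (i : ℕ) (arc x (Sum.inr true)) = PowerSeries.coeff 0 u0 := by
          rw [hu0]
          have := PowerSeries.coeff_X_pow_mul u0 (i : ℕ) 0
          rwa [zero_add] at this
        rw [← h2, coeff_arc, dif_pos hN]
        exact isUnit_iff_ne_zero.2 hxi
      have hfxy : (fun p : σ × Fin N => x (Sum.inl p.1, p.2)) =
          fun p : σ × Fin N => y (Sum.inl p.1, p.2) := by
        funext p
        exact ef p.1 p.2
      have hd : PowerSeries.X ^ N ∣ arc x (Sum.inr true) *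
          (arc x (Sum.inr false) - arc y (Sum.inr false)) := by
        rw [PowerSeries.X_pow_dvd_iff]
        intro m hm
        have h2 := hx m hm
        have h3 := hy m hm
        rw [arcEval_stab, map_add] at h2 h3
        rw [mul_sub, map_sub, sub_eq_zero]
        rw [← hfxy, ← eu'] at h3
        exact add_left_cancel (h2.trans h3.symm)
      have hd2 : PowerSeries.X ^ (N - i : ℕ) ∣
          (arc x (Sum.inr false) - arc y (Sum.inr false)) := by
        rw [hu0, mul_assoc] at hd
        have h2 : (PowerSeries.X : PowerSeries ℂ) ^ N =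
            PowerSeries.X ^ (i : ℕ) * PowerSeries.X ^ (N - i : ℕ) := by
          rw [← pow_add]
          congr 1
          omega
        rw [h2] at hd
        have h3 := (mul_dvd_mul_iff_left (pow_ne_zero (i : ℕ) PowerSeries.X_ne_zero)).1 hd
        exact (hunit.dvd_mul_left).1 h3
      have ev : ∀ l : Fin N, x (Sum.inr false, l) = y (Sum.inr false, l) := by
        intro l
        by_cases hl : (l : ℕ) < N - i
        · have h2 := (PowerSeries.X_pow_dvd_iff.1 hd2) l hl
          rw [map_sub, sub_eq_zero, coeff_arc, coeff_arc, dif_pos l.2, dif_pos l.2] at h2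
          exact h2
        · have h2 := congrFun hxy (Sum.inr (Sum.inr ⟨l - (N - i), by have := l.2; omega⟩))
          have e1 : e (Sum.inr (Sum.inr ⟨l - (N - i), by have := l.2; omega⟩)) =
              (Sum.inr false, l) := by
            simp only [e, Sum.elim_inr, Prod.mk.injEq, true_and, Fin.ext_iff]
            omega
          simp only [e1] at h2
          exact h2
      funext p
      obtain ⟨j | b, l⟩ := p
      · exact ef j l
      · cases b
        · exact ev l
        · exact eu l
    · rintro χ ⟨hχ1, hχ2⟩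
      have hχ2' : χ (Sum.inr (Sum.inl z)) ≠ 0 := hχ2
      let uu : PowerSeries ℂ := arc (fun p : Unit × Fin (N - i) => χ (Sum.inr (Sum.inl p.2))) ()
      let g : PowerSeries ℂ := PowerSeries.C (algebraMap k ℂ c) * PowerSeries.X ^ (N - 1) -
        arcEval k (fun p : σ × Fin N => χ (Sum.inl p)) f
      have hg : PowerSeries.X ^ (i : ℕ) ∣ g := by
        rw [PowerSeries.X_pow_dvd_iff]
        intro m hm
        simp only [g]
        rw [map_sub, PowerSeries.coeff_C_mul, PowerSeries.coeff_X_pow, if_neg (by omega), mul_zero,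
          zero_sub, neg_eq_zero]
        exact hχ1 m hm
      obtain ⟨g', hg'⟩ := hg
      have huu : PowerSeries.constantCoeff uu ≠ 0 := by
        rw [← PowerSeries.coeff_zero_eq_constantCoeff_apply]
        simp only [uu]
        rw [coeff_arc, dif_pos (by omega)]
        exact hχ2'
      let w : PowerSeries ℂ := uu⁻¹ * g'
      have hw : uu * w = g' := by
        simp only [w]
        rw [← mul_assoc, PowerSeries.mul_inv_cancel _ huu, one_mul]
      let x : (σ ⊕ Bool) × Fin N → ℂ := fun p =>
        Sum.elim (fun j => χ (Sum.inl (j, p.2)))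
          (fun b => if b = true then
              (if h : (p.2 : ℕ) < i then 0
                else χ (Sum.inr (Sum.inl ⟨p.2 - i, by have := p.2.2; omega⟩)))
            else (if h : (p.2 : ℕ) < N - i then PowerSeries.coeff (p.2 : ℕ) w
                else χ (Sum.inr (Sum.inr ⟨p.2 - (N - i), by have := p.2.2; omega⟩)))) p.1
      have hx1 : (fun p : σ × Fin N => x (Sum.inl p.1, p.2)) =
          fun p : σ × Fin N => χ (Sum.inl p) := rfl
      have xu0 : ∀ l : Fin N, (l : ℕ) < i → x (Sum.inr true, l) = 0 := fun l h => dif_pos h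
      have xu1 : ∀ (l : Fin N) (h : ¬ (l : ℕ) < i), x (Sum.inr true, l) =
          χ (Sum.inr (Sum.inl ⟨l - i, by have := l.2; omega⟩)) := fun l h => dif_neg h
      have xv0 : ∀ l : Fin N, (l : ℕ) < N - i → x (Sum.inr false, l) =
          PowerSeries.coeff (l : ℕ) w := fun l h => dif_pos h
      have xv1 : ∀ (l : Fin N) (h : ¬ (l : ℕ) < N - i), x (Sum.inr false, l) =
          χ (Sum.inr (Sum.inr ⟨l - (N - i), by have := l.2; omega⟩)) := fun l h => dif_neg h
      have hxe : (fun j => x (e j)) = χ := by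
        funext p
        rcases p with ⟨j, l⟩ | l | l
        · rfl
        · show x (Sum.inr true, ⟨i + l, by have := l.2; omega⟩) = _
          rw [xu1 _ (by simp)]
          simp
        · show x (Sum.inr false, ⟨N - i + l, by have := l.2; omega⟩) = _
          rw [xv1 _ (by simp)]
          simp
      have hxu : arc x (Sum.inr true) = PowerSeries.X ^ (i : ℕ) * uu := by
        ext l
        rw [coeff_arc, PowerSeries.coeff_X_pow_mul']
        simp only [uu, coeff_arc]
        by_cases hl : l < N
        · rw [dif_pos hl]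
          by_cases hli : l < i
          · rw [if_neg (by omega), xu0 _ hli]
          · rw [if_pos (by omega), dif_pos (by omega), xu1 _ hli]
        · rw [dif_neg hl]
          by_cases hli : (i : ℕ) ≤ l
          · rw [if_pos hli, dif_neg (by omega)]
          · rw [if_neg hli]
      have hxv : PowerSeries.X ^ (N - i : ℕ) ∣ arc x (Sum.inr false) - w := by
        rw [PowerSeries.X_pow_dvd_iff]
        intro m hm
        rw [map_sub, coeff_arc, dif_pos (by omega), xv0 _ hm, sub_self]
      have hd : PowerSeries.X ^ N ∣ arc x (Sum.inr true) * arc x (Sum.inr false) - g := by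
        have h2 : arc x (Sum.inr true) * arc x (Sum.inr false) - g =
            PowerSeries.X ^ (i : ℕ) * (uu * (arc x (Sum.inr false) - w)) := by
          rw [hxu, hg', ← hw]
          ring
        have h3 : (PowerSeries.X : PowerSeries ℂ) ^ N =
            PowerSeries.X ^ (i : ℕ) * PowerSeries.X ^ (N - i : ℕ) := by
          rw [← pow_add]
          congr 1
          omega
        rw [h2, h3]
        exact mul_dvd_mul_left _ (hxv.mul_left _)
      refine ⟨x, ⟨?_, ?_, ?_⟩, hxe⟩
      · intro l hl
        have h2 := (PowerSeries.X_pow_dvd_iff.1 hd) l hl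
        rw [map_sub, sub_eq_zero] at h2
        rw [arcEval_stab, map_add, h2, hx1]
        simp only [g]
        rw [map_sub, PowerSeries.coeff_C_mul, PowerSeries.coeff_X_pow]
        by_cases hl1 : l + 1 = N
        · rw [if_pos hl1, if_pos (by omega)]
          ring
        · rw [if_neg hl1, if_neg (by omega)]
          ring
      · intro l hl
        exact xu0 l hl
      · have h2 : x (Sum.inr true, i) = χ (Sum.inr (Sum.inl z)) := by
          rw [xu1 i (lt_irrefl _)]
          simp [z]
        rw [h2]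
        exact hχ2'
  rw [h1, cl_prod (isCons_Cy N i f) (isCons_ne_zero _), cl_ne]
  have h2 : Nat.card (Fin (N - i) ⊕ Fin i) = N := by
    simp
  rw [h2]
  ring

/-- B3: the stratum `u = 0` -/
theorem cl_Str_zero [Finite σ] (N : ℕ) (c : k) (f : MvPolynomial σ k) :
    cl k {φ : (σ ⊕ Bool) × Fin N → ℂ | φ ∈ Y k N c (stab k f) ∧ ∀ l, φ (Sum.inr true, l) = 0} =
      L k ^ N * cl k (Y k N c f) := by
  let e : (σ × Fin N) ⊕ Fin N → (σ ⊕ Bool) × Fin N :=
    Sum.elim (fun p => (Sum.inl p.1, p.2)) (fun l => (Sum.inr false, l))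
  have hA : IsCons k {φ : (σ ⊕ Bool) × Fin N → ℂ | φ ∈ Y k N c (stab k f) ∧
      ∀ l, φ (Sum.inr true, l) = 0} := by
    have h2 := (isCons_Y N c (stab k f)).inter (IsCons.iInter (J := Fin N)
      (fun l => isCons_eq_zero (k := k) (ι := (σ ⊕ Bool) × Fin N) (Sum.inr true, l)))
    convert h2 using 1
    ext φ
    simp
  have hev : ∀ x : (σ ⊕ Bool) × Fin N → ℂ, (∀ l, x (Sum.inr true, l) = 0) →
      arcEval k x (stab k f) = arcEval k (fun p : σ × Fin N => x (Sum.inl p.1, p.2)) f := by
    intro x hx
    have h0 : arc x (Sum.inr true) = 0 := by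
      ext l
      rw [coeff_arc]
      split_ifs with h
      · simp [hx]
      · simp
    rw [arcEval_stab, h0, zero_mul, add_zero]
  have h1 : cl k {φ : (σ ⊕ Bool) × Fin N → ℂ | φ ∈ Y k N c (stab k f) ∧
      ∀ l, φ (Sum.inr true, l) = 0} = cl k {φ : (σ × Fin N) ⊕ Fin N → ℂ |
      (fun p => φ (Sum.inl p)) ∈ Y k N c f ∧ (fun p => φ (Sum.inr p)) ∈ Set.univ} := by
    refine cl_reindex hA ((isCons_Y N c f).prod IsCons.univ) e ?_
    refine ⟨?_, ?_, ?_⟩
    · rintro x ⟨hx, hx0⟩
      refine ⟨?_, Set.mem_univ _⟩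
      intro l hl
      have h2 := hx l hl
      rw [hev x hx0] at h2
      exact h2
    · rintro x ⟨hx, hx0⟩ y ⟨hy, hy0⟩ hxy
      funext p
      obtain ⟨j | b, l⟩ := p
      · exact congrFun hxy (Sum.inl (j, l))
      · cases b
        · exact congrFun hxy (Sum.inr l)
        · rw [hx0, hy0]
    · rintro χ ⟨hχ, -⟩
      let x : (σ ⊕ Bool) × Fin N → ℂ := fun p =>
        Sum.elim (fun j => χ (Sum.inl (j, p.2))) (fun b => if b = true then 0 else χ (Sum.inr p.2))
          p.1
      have hx0 : ∀ l, x (Sum.inr true, l) = 0 := fun l => rfl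
      have hxe : (fun j => x (e j)) = χ := by
        funext p
        rcases p with ⟨j, l⟩ | l
        · rfl
        · rfl
      refine ⟨x, ⟨?_, hx0⟩, hxe⟩
      intro l hl
      rw [hev x hx0]
      exact hχ l hl
  rw [h1, cl_prod (isCons_Y N c f) IsCons.univ, cl_univ]
  simp
  ring

/-- B4: from `cl_Cy`, `cl_Str`, `cl_Str_zero` -/
theorem cl_Y_stab [Finite σ] (N : ℕ) (c : k) (f : MvPolynomial σ k) :
    cl k (Y k N c (stab k f)) = L k ^ N * cl k (Y k N c f) +
      ∑ i ∈ Finset.range N, (L k - 1) * L k ^ (N - 1) *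
        (cl k (Y k i 0 f) * L k ^ (Nat.card σ * (N - i))) := by
  let U : ℕ → Set ((σ ⊕ Bool) × Fin N → ℂ) := fun n =>
    {φ | φ ∈ Y k N c (stab k f) ∧ ∀ l : Fin N, (l : ℕ) < n → φ (Sum.inr true, l) = 0}
  have hU : ∀ n, IsCons k (U n) := by
    intro n
    have h2 := (isCons_Y N c (stab k f)).inter (IsCons.iInter (J := {l : Fin N // (l : ℕ) < n})
      (fun l => isCons_eq_zero (k := k) (ι := (σ ⊕ Bool) × Fin N) (Sum.inr true, l.1)))
    convert h2 using 1
    ext φ
    simp [U]
  have hstep : ∀ n, n ≤ N → cl k (Y k N c (stab k f)) = cl k (U n) +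
      ∑ i ∈ Finset.range n, (L k - 1) * L k ^ (N - 1) *
        (cl k (Y k i 0 f) * L k ^ (Nat.card σ * (N - i))) := by
    intro n
    induction n with
    | zero =>
      intro _
      have : U 0 = Y k N c (stab k f) := by
        ext φ
        simp [U]
      rw [this]
      simp
    | succ n ih =>
      intro hn
      have h3 : U n = Str (⟨n, hn⟩ : Fin N) c f ∪ U (n + 1) := by
        ext φ
        simp only [U, Str, Set.mem_union, Set.mem_ofPred_eq]
        constructor
        · rintro ⟨h1, h2⟩
          by_cases h4 : φ (Sum.inr true, ⟨n, hn⟩) = 0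
          · right
            refine ⟨h1, ?_⟩
            intro l hl
            rcases Nat.lt_succ_iff_lt_or_eq.1 hl with h5 | h5
            · exact h2 l h5
            · have : l = ⟨n, hn⟩ := Fin.ext h5
              rw [this]
              exact h4
          · left
            exact ⟨h1, fun l hl => h2 l hl, h4⟩
        · rintro (⟨h1, h2, -⟩ | ⟨h1, h2⟩)
          · exact ⟨h1, fun l hl => h2 l hl⟩
          · exact ⟨h1, fun l hl => h2 l (by omega)⟩
      have h4 : Disjoint (Str (⟨n, hn⟩ : Fin N) c f) (U (n + 1)) := by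
        rw [Set.disjoint_left]
        rintro φ ⟨-, -, h5⟩ ⟨-, h6⟩
        exact h5 (h6 ⟨n, hn⟩ (Nat.lt_succ_self n))
      rw [ih (by omega), h3, cl_union (isCons_Str _ c f) (hU _) h4, cl_Str, Finset.sum_range_succ,
        cl_Cy (show n ≤ N by omega)]
      ring
  have hlast : U N = {φ : (σ ⊕ Bool) × Fin N → ℂ | φ ∈ Y k N c (stab k f) ∧
      ∀ l, φ (Sum.inr true, l) = 0} := by
    ext φ
    simp [U]
  rw [hstep N le_rfl, hlast, cl_Str_zero]

end B2

end Pool.Agent.H39.MonoR
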