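import Pool.Agent.H39.MonoR.C
import Pool.Agent.H39.MonoR.B2

set_option autoImplicit false

/-!
# Project MONO, module C: the series, exact statements
-/

namespace Pool.Agent.H39.MonoR

open MvPolynomial

section C

variable {k : Type} [Field k] [Algebra k ℂ] {σ : Type} [Finite σ]

theorem strataFormula (f : MvPolynomial σ k) : StrataFormula k f := fun N c => cl_Y_stab N c f

/-- C1 (from B4) -/
theorem Z_stab (f : MvPolynomial σ k) :
    den k (-1, 1) * Zmot k (stab k f) =
      den k (-1, 1) * (PowerSeries.C (↑(Lu k) : M k) * dn k (Zmot k f)) +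
        PowerSeries.C ((↑(Lu k) - 1) * ↑(Lu k) ^ Nat.card σ : M k) * dn k (Pmot k f) :=
  Z_stab_of (strataFormula f)

/-- C2 (from B4) -/
theorem P_stab (f : MvPolynomial σ k) :
    den k (-1, 1) * Pmot k (stab k f) = dn k (Pmot k f) * den k (-2, 1) :=
  P_stab_of (strataFormula f)

/-- C3 (from C1, C2) -/
theorem elim_identity (f : MvPolynomial σ k) :
    den k (-1, 1) * Zmot k f =
      den k (-1, 1) * (PowerSeries.C (↑(Lu k)⁻¹ : M k) * up k (Zmot k (stab k f))) -
        PowerSeries.C (↑(Lu k)⁻¹ : M k) * den k (1, 1) *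
          (PowerSeries.C (↑(Lu k ^ (-2 : ℤ)) : M k) * up k (up k (Zmot k (stab k (stab k f)))) -
            PowerSeries.C (↑(Lu k)⁻¹ : M k) * up k (Zmot k (stab k f))) :=
  elim_identity_of (strataFormula f) (strataFormula (stab k f))

/-- C5 (from C3, C4) -/
theorem Z_mem (f : MvPolynomial σ k) (S1 S2 : Set (ℤ × ℕ)) (h1 : Zmot k (stab k f) ∈ RS k S1)
    (h2 : Zmot k (stab k (stab k f)) ∈ RS k S2) :
    Zmot k f ∈ RS k ({(-1, 1)} ∪ (fun p : ℤ × ℕ => (p.1 + p.2, p.2)) '' S1 ∪
      (fun p : ℤ × ℕ => (p.1 + 2 * p.2, p.2)) '' S2) :=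
  Z_mem_of (strataFormula f) (strataFormula (stab k f)) S1 S2 h1 h2

end C

end Pool.Agent.H39.MonoR
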