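import Pool.Agent.H39.MonoR.Defs2

/-!
# MONO, module E: reduction to tri-affine polynomials
-/

set_option autoImplicit false

namespace Pool.Agent.H39.MonoR

open MvPolynomial

section E

variable {k : Type} [Field k] {σ : Type}

/-! ### Counting -/

theorem cnt_add (κ : σ → Fin 3) (m m' : σ →₀ ℕ) (c : Fin 3) :
    cnt κ (m + m') c = cnt κ m c + cnt κ m' c := by
  classical
  unfold cnt
  refine Finsupp.sum_add_index' ?_ ?_
  · intro i
    simp
  · intro i a b
    split_ifs <;> simp

theorem cnt_single (κ : σ → Fin 3) (i : σ) (n : ℕ) (c : Fin 3) :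
    cnt κ (Finsupp.single i n) c = if κ i = c then n else 0 := by
  classical
  unfold cnt
  rw [Finsupp.sum_single_index]
  simp

theorem cnt_mapDomain {τ : Type} (κ : τ → Fin 3) (g : σ → τ) (m : σ →₀ ℕ)
    (c : Fin 3) : cnt κ (m.mapDomain g) c = cnt (κ ∘ g) m c := by
  classical
  unfold cnt
  rw [Finsupp.sum_mapDomain_index]
  · rfl
  · intro i
    simp
  · intro i a b
    split_ifs <;> simp

theorem cnt_le_degree (κ : σ → Fin 3) (m : σ →₀ ℕ) : ∑ c, cnt κ m c = m.degree := by
  classical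
  unfold cnt
  simp only [Finsupp.sum, Finsupp.degree]
  rw [Finset.sum_comm]
  apply Finset.sum_congr rfl
  intro i _
  simp

theorem le_cnt (κ : σ → Fin 3) (m : σ →₀ ℕ) (i : σ) : m i ≤ cnt κ m (κ i) := by
  classical
  by_cases h : i ∈ m.support
  · unfold cnt
    rw [Finsupp.sum]
    calc m i = if κ i = κ i then m i else 0 := by simp
      _ ≤ _ := Finset.single_le_sum (f := fun j => if κ j = κ i then m j else 0)
        (fun j _ => Nat.zero_le _) h
  · rw [Finsupp.notMem_support_iff.1 h]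
    exact Nat.zero_le _

open Classical in
/-- the contribution of a monomial -/
noncomputable def ww (κ : σ → Fin 3) (m : σ →₀ ℕ) : ℕ :=
  if ∃ c, 2 ≤ cnt κ m c then 3 ^ cpl κ m else 0

theorem wt_eq (κ : σ → Fin 3) (f : MvPolynomial σ k) : wt κ f = ∑ m ∈ f.support, ww κ m := by
  classical
  unfold wt ww
  rw [Finset.sum_filter]

/-- E0 -/
theorem triAffine_of_wt {κ : σ → Fin 3} {f : MvPolynomial σ k} (h : wt κ f = 0) :
    ∀ m ∈ f.support, (∀ i, m i ≤ 1) ∧ ∀ i j, i ≠ j → κ i = κ j → m i = 0 ∨ m j = 0 := by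
  classical
  rw [wt_eq, Finset.sum_eq_zero_iff] at h
  intro m hm
  have h1 : ∀ c, cnt κ m c ≤ 1 := by
    intro c
    by_contra hc
    have h2 := h m hm
    unfold ww at h2
    rw [if_pos ⟨c, by omega⟩] at h2
    exact absurd h2 (by positivity)
  refine ⟨fun i => (le_cnt κ m i).trans (h1 _), ?_⟩
  intro i j hij hκ
  by_contra hc
  push Not at hc
  have h2 : m = Finsupp.single i 1 + (m - Finsupp.single i 1) := by
    ext l
    simp only [Finsupp.add_apply, Finsupp.tsub_apply, Finsupp.single_apply]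
    by_cases hl : i = l
    · subst hl
      have := hc.1
      simp
      omega
    · simp [hl]
  have h3 : cnt κ m (κ i) = 1 + cnt κ (m - Finsupp.single i 1) (κ i) := by
    conv_lhs => rw [h2]
    rw [cnt_add, cnt_single, if_pos rfl]
  have h4 := le_cnt κ (m - Finsupp.single i 1) j
  rw [← hκ] at h4
  have h5 : (m - Finsupp.single i 1 : σ →₀ ℕ) j = m j := by
    rw [Finsupp.tsub_apply, Finsupp.single_apply, if_neg hij, Nat.sub_zero]
  rw [h5] at h4
  have := h1 (κ i)
  have := hc.2
  omega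

/-! ### The automorphism -/

/-- the images of the variables -/
noncomputable def gens (A B : MvPolynomial σ k) : σ ⊕ Bool → MvPolynomial (σ ⊕ Bool) k :=
  Sum.elim (fun i => X (Sum.inl i))
    (fun t => if t = true then X (Sum.inr true) + rename Sum.inl A
      else X (Sum.inr false) + rename Sum.inl B)

theorem aeval_gens_inl (A B g : MvPolynomial σ k) :
    aeval (gens A B) (rename Sum.inl g : MvPolynomial (σ ⊕ Bool) k) = rename Sum.inl g := by
  have h : (aeval (gens A B)).comp (rename Sum.inl) =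
      (rename Sum.inl : MvPolynomial σ k →ₐ[k] MvPolynomial (σ ⊕ Bool) k) := by
    apply MvPolynomial.algHom_ext
    intro i
    simp [gens]
  exact DFunLike.congr_fun h g

theorem aeval_gens_t (A B : MvPolynomial σ k) :
    aeval (gens A B) (X (Sum.inr true) : MvPolynomial (σ ⊕ Bool) k) =
      X (Sum.inr true) + rename Sum.inl A := by
  rw [aeval_X]
  simp [gens]

theorem aeval_gens_f (A B : MvPolynomial σ k) :
    aeval (gens A B) (X (Sum.inr false) : MvPolynomial (σ ⊕ Bool) k) =
      X (Sum.inr false) + rename Sum.inl B := by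
  rw [aeval_X]
  simp [gens]

theorem gens_comp (A B : MvPolynomial σ k) :
    (aeval (gens A B)).comp (aeval (gens (-A) (-B))) =
      AlgHom.id k (MvPolynomial (σ ⊕ Bool) k) := by
  apply MvPolynomial.algHom_ext
  intro i
  rw [AlgHom.comp_apply, aeval_X]
  rcases i with i | t
  · simp [gens]
  · cases t
    · have : gens (-A) (-B) (Sum.inr false) =
          X (Sum.inr false) + rename Sum.inl (-B) := by simp [gens]
      rw [this, map_add, aeval_gens_f, aeval_gens_inl]
      simp
    · have : gens (-A) (-B) (Sum.inr true) =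
          X (Sum.inr true) + rename Sum.inl (-A) := by simp [gens]
      rw [this, map_add, aeval_gens_t, aeval_gens_inl]
      simp

/-- the automorphism `u ↦ u + A`, `v ↦ v + B` -/
noncomputable def shear (A B : MvPolynomial σ k) :
    MvPolynomial (σ ⊕ Bool) k ≃ₐ[k] MvPolynomial (σ ⊕ Bool) k :=
  AlgEquiv.ofAlgHom (aeval (gens A B)) (aeval (gens (-A) (-B))) (gens_comp A B)
    (by simpa using gens_comp (-A) (-B))

theorem shear_stab (A B f : MvPolynomial σ k) :
    shear A B (stab k f) = rename Sum.inl f +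
      (X (Sum.inr true) + rename Sum.inl A) * (X (Sum.inr false) + rename Sum.inl B) := by
  show aeval (gens A B) (stab k f) = _
  unfold stab
  rw [map_add, map_mul, aeval_gens_inl, aeval_gens_t, aeval_gens_f]

/-! ### The weight -/

/-- the colouring of the new variables -/
def kap (κ : σ → Fin 3) (cu cv : Fin 3) : σ ⊕ Bool → Fin 3 :=
  Sum.elim κ (fun t => if t = true then cu else cv)

theorem ww_congr {τ : Type} (κ : σ → Fin 3) (κ' : τ → Fin 3) (m : σ →₀ ℕ) (m' : τ →₀ ℕ)
    (h : ∀ c, cnt κ m c = cnt κ' m' c) : ww κ m = ww κ' m' := by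
  have h1 : m.degree = m'.degree := by
    rw [← cnt_le_degree κ m, ← cnt_le_degree κ' m']
    exact Finset.sum_congr rfl (fun c _ => h c)
  unfold ww cpl
  rw [h1]
  simp only [h]

theorem ww_zero_of (κ : σ → Fin 3) (m : σ →₀ ℕ) (h : ∀ c, cnt κ m c ≤ 1) : ww κ m = 0 := by
  unfold ww
  rw [if_neg]
  rintro ⟨c, hc⟩
  have := h c
  omega

theorem ww_le (κ : σ → Fin 3) (m : σ →₀ ℕ) : ww κ m ≤ 3 ^ cpl κ m := by
  unfold ww
  split_ifs
  · exact le_rfl
  · exact Nat.zero_le _

theorem sum_union_le' {α : Type} [DecidableEq α] (s t : Finset α) (f : α → ℕ) :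
    ∑ x ∈ s ∪ t, f x ≤ ∑ x ∈ s, f x + ∑ x ∈ t, f x := by
  have := Finset.sum_union_inter (s₁ := s) (s₂ := t) (f := f)
  omega

theorem wt_core {κ : σ → Fin 3} {f : MvPolynomial σ k} {m : σ →₀ ℕ} (hm : m ∈ f.support)
    (a b : σ →₀ ℕ) (hab : m = a + b) (cu cv : Fin 3) (huv : cu ≠ cv)
    (h : ww (kap κ cu cv) (Finsupp.single (Sum.inr true) 1 + b.mapDomain Sum.inl) +
      ww (kap κ cu cv) (Finsupp.single (Sum.inr false) 1 + a.mapDomain Sum.inl) < ww κ m) :
    ∃ (e : MvPolynomial (σ ⊕ Bool) k ≃ₐ[k] MvPolynomial (σ ⊕ Bool) k) (κ' : σ ⊕ Bool → Fin 3),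
      wt κ' (e (stab k f)) < wt κ f := by
  classical
  set c := coeff m f with hc
  set f0 := f - monomial m c with hf0
  have hsupp : f0.support ⊆ f.support.erase m := by
    intro l hl
    rw [mem_support_iff] at hl
    rw [Finset.mem_erase, mem_support_iff]
    have h1 : coeff l f0 = coeff l f - if m = l then c else 0 := by
      rw [hf0, coeff_sub, coeff_monomial]
    rw [h1] at hl
    by_cases hlm : m = l
    · subst hlm
      simp [hc] at hl
    · rw [if_neg hlm, sub_zero] at hl
      exact ⟨fun h => hlm h.symm, hl⟩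
  refine ⟨shear (-(monomial a c)) (monomial b 1), kap κ cu cv, ?_⟩
  have hmon : (monomial m c : MvPolynomial σ k) = monomial a c * monomial b 1 := by
    rw [monomial_mul, hab, mul_one]
  have hF : shear (-(monomial a c)) (monomial b 1) (stab k f) =
      rename Sum.inl f0 + (monomial (Finsupp.single (Sum.inr true) 1 +
        Finsupp.single (Sum.inr false) 1) 1 +
      (monomial (Finsupp.single (Sum.inr true) 1 + b.mapDomain Sum.inl) 1 +
       monomial (Finsupp.single (Sum.inr false) 1 + a.mapDomain Sum.inl) (-c))) := by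
    rw [shear_stab]
    have h1 : f = f0 + monomial a c * monomial b 1 := by
      rw [← hmon, hf0]
      ring
    conv_lhs => rw [h1]
    have h2 : (monomial (Finsupp.single (Sum.inr true) 1 +
        Finsupp.single (Sum.inr false) 1) 1 : MvPolynomial (σ ⊕ Bool) k) =
        X (Sum.inr true) * X (Sum.inr false) := by
      rw [X, X, monomial_mul, one_mul]
    have h3 : (monomial (Finsupp.single (Sum.inr true) 1 + b.mapDomain Sum.inl) 1 :
        MvPolynomial (σ ⊕ Bool) k) = X (Sum.inr true) * rename Sum.inl (monomial b 1) := by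
      rw [X, rename_monomial, monomial_mul, one_mul]
    have h4 : (monomial (Finsupp.single (Sum.inr false) 1 + a.mapDomain Sum.inl) (-c) :
        MvPolynomial (σ ⊕ Bool) k) = -(X (Sum.inr false) * rename Sum.inl (monomial a c)) := by
      rw [X, rename_monomial, monomial_mul, one_mul, map_neg]
    rw [h2, h3, h4, map_add, map_mul, map_neg]
    ring
  have hsub : (shear (-(monomial a c)) (monomial b 1) (stab k f)).support ⊆
      f0.support.image (Finsupp.mapDomain Sum.inl) ∪
      ({Finsupp.single (Sum.inr true) 1 + Finsupp.single (Sum.inr false) 1} ∪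
      ({Finsupp.single (Sum.inr true) 1 + b.mapDomain Sum.inl} ∪
       {Finsupp.single (Sum.inr false) 1 + a.mapDomain Sum.inl})) := by
    rw [hF]
    refine (support_add).trans (Finset.union_subset_union ?_ ((support_add).trans
      (Finset.union_subset_union support_monomial_subset ((support_add).trans
        (Finset.union_subset_union support_monomial_subset support_monomial_subset)))))
    rw [support_rename_of_injective Sum.inl_injective]
  rw [wt_eq, wt_eq]
  have hw : ∀ l : σ →₀ ℕ, ww (kap κ cu cv) (l.mapDomain Sum.inl) = ww κ l := by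
    intro l
    apply ww_congr
    intro c
    rw [cnt_mapDomain]
    rfl
  have h0 : ww (kap κ cu cv) (Finsupp.single (Sum.inr true) 1 +
      Finsupp.single (Sum.inr false) 1) = 0 := by
    apply ww_zero_of
    intro c
    rw [cnt_add, cnt_single, cnt_single]
    have e1 : kap κ cu cv (Sum.inr true) = cu := rfl
    have e2 : kap κ cu cv (Sum.inr false) = cv := rfl
    rw [e1, e2]
    by_cases hcu : cu = c
    · rw [if_pos hcu, if_neg (fun h => huv (hcu.trans h.symm))]
    · rw [if_neg hcu]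
      split_ifs <;> omega
  have hle : ∑ l ∈ (shear (-(monomial a c)) (monomial b 1) (stab k f)).support,
      ww (kap κ cu cv) l ≤ ∑ l ∈ f0.support, ww κ l +
        (0 + (ww (kap κ cu cv) (Finsupp.single (Sum.inr true) 1 + b.mapDomain Sum.inl) +
      ww (kap κ cu cv) (Finsupp.single (Sum.inr false) 1 + a.mapDomain Sum.inl))) := by
    refine (Finset.sum_le_sum_of_subset hsub).trans ?_
    refine (sum_union_le' _ _ _).trans (add_le_add ?_ ((sum_union_le' _ _ _).trans
      (add_le_add ?_ ((sum_union_le' _ _ _).trans (add_le_add ?_ ?_)))))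
    · rw [Finset.sum_image (fun x _ y _ hxy => Finsupp.mapDomain_injective Sum.inl_injective hxy)]
      exact Finset.sum_le_sum (fun l _ => (hw l).le)
    · rw [Finset.sum_singleton, h0]
    · rw [Finset.sum_singleton]
    · rw [Finset.sum_singleton]
  have hlt : ∑ l ∈ f0.support, ww κ l + ww κ m ≤ ∑ l ∈ f.support, ww κ l := by
    rw [← Finset.sum_erase_add _ _ hm]
    exact Nat.add_le_add_right (Finset.sum_le_sum_of_subset hsupp) _
  omega

theorem cnt_kap_t (κ : σ → Fin 3) (cu cv : Fin 3) (b : σ →₀ ℕ) (c : Fin 3) :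
    cnt (kap κ cu cv) (Finsupp.single (Sum.inr true) 1 + b.mapDomain Sum.inl) c =
      (if cu = c then 1 else 0) + cnt κ b c := by
  rw [cnt_add, cnt_single, cnt_mapDomain]
  rfl

theorem cnt_kap_f (κ : σ → Fin 3) (cu cv : Fin 3) (a : σ →₀ ℕ) (c : Fin 3) :
    cnt (kap κ cu cv) (Finsupp.single (Sum.inr false) 1 + a.mapDomain Sum.inl) c =
      (if cv = c then 1 else 0) + cnt κ a c := by
  rw [cnt_add, cnt_single, cnt_mapDomain]
  rfl

theorem exists_var (m : σ →₀ ℕ) (h : m ≠ 0) : ∃ i, 1 ≤ m i ∧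
    m = Finsupp.single i 1 + (m - Finsupp.single i 1) := by
  classical
  obtain ⟨i, hi⟩ := Finsupp.ne_iff.1 h
  have hi' : m i ≠ 0 := hi
  refine ⟨i, by omega, ?_⟩
  ext l
  rw [Finsupp.add_apply, Finsupp.tsub_apply, Finsupp.single_apply]
  by_cases hl : i = l
  · subst hl
    rw [if_pos rfl]
    omega
  · rw [if_neg hl]
    omega

theorem pow_lt {x y z : ℕ} (hx : x < z) (hy : y < z) : 3 ^ x + 3 ^ y < 3 ^ z := by
  have h1 : 3 ^ x ≤ 3 ^ (z - 1) := Nat.pow_le_pow_right (by norm_num) (by omega)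
  have h2 : 3 ^ y ≤ 3 ^ (z - 1) := Nat.pow_le_pow_right (by norm_num) (by omega)
  have h3 : 3 ^ z = 3 * 3 ^ (z - 1) := by
    rw [← pow_succ']
    congr 1
    omega
  have h4 : 0 < 3 ^ (z - 1) := by positivity
  omega

theorem cpl_eq (κ : σ → Fin 3) (m : σ →₀ ℕ) : cpl κ m = (cnt κ m 0 + cnt κ m 1 + cnt κ m 2) ^ 3 +
    (cnt κ m 0 ^ 2 + cnt κ m 1 ^ 2 + cnt κ m 2 ^ 2) := by
  unfold cpl
  rw [← cnt_le_degree κ m, Fin.sum_univ_three, Fin.sum_univ_three]

theorem le_cpl (κ : σ → Fin 3) (m : σ →₀ ℕ) : m.degree ^ 3 ≤ cpl κ m := Nat.le_add_right _ _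

theorem cpl_le (κ : σ → Fin 3) (m : σ →₀ ℕ) : cpl κ m ≤ m.degree ^ 3 + m.degree ^ 2 := by
  unfold cpl
  apply Nat.add_le_add_left
  rw [← cnt_le_degree κ m, Fin.sum_univ_three, Fin.sum_univ_three]
  nlinarith [Nat.zero_le (cnt κ m 0 * cnt κ m 1), Nat.zero_le (cnt κ m 0 * cnt κ m 2),
    Nat.zero_le (cnt κ m 1 * cnt κ m 2)]

theorem deg_t (κ : σ → Fin 3) (b : σ →₀ ℕ) :
    (Finsupp.single (Sum.inr true : σ ⊕ Bool) 1 + b.mapDomain Sum.inl).degree = 1 + b.degree := by
  rw [← cnt_le_degree (kap κ 0 1), ← cnt_le_degree κ b]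
  simp only [cnt_kap_t, Fin.sum_univ_three]
  simp
  omega

theorem deg_f (κ : σ → Fin 3) (a : σ →₀ ℕ) :
    (Finsupp.single (Sum.inr false : σ ⊕ Bool) 1 + a.mapDomain Sum.inl).degree = 1 + a.degree := by
  rw [← cnt_le_degree (kap κ 0 1), ← cnt_le_degree κ a]
  simp only [cnt_kap_f, Fin.sum_univ_three]
  simp
  omega

theorem exists_colours (n : Fin 3 → ℕ) (h : n 0 + n 1 + n 2 ≤ 3) (c : Fin 3) (hc : 2 ≤ n c) :
    ∃ cu cv : Fin 3, cu ≠ cv ∧ cu ≠ c ∧ cv ≠ c ∧ n cu = 0 := by
  fin_cases c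
  · have hc' : 2 ≤ n 0 := hc
    by_cases h1 : n 1 = 0
    · exact ⟨1, 2, by decide, by decide, by decide, h1⟩
    · exact ⟨2, 1, by decide, by decide, by decide, by omega⟩
  · have hc' : 2 ≤ n 1 := hc
    by_cases h1 : n 0 = 0
    · exact ⟨0, 2, by decide, by decide, by decide, h1⟩
    · exact ⟨2, 0, by decide, by decide, by decide, by omega⟩
  · have hc' : 2 ≤ n 2 := hc
    by_cases h1 : n 0 = 0
    · exact ⟨0, 1, by decide, by decide, by decide, h1⟩
    · exact ⟨1, 0, by decide, by decide, by decide, by omega⟩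

theorem cpl_swap (n b : Fin 3 → ℕ) (c cu : Fin 3) (h1 : cu ≠ c)
    (h2 : ∀ l, n l = (if c = l then 1 else 0) + b l) (h3 : 2 ≤ n c) (h4 : n cu = 0) :
    ((if cu = 0 then 1 else 0) + b 0) ^ 2 + ((if cu = 1 then 1 else 0) + b 1) ^ 2 +
      ((if cu = 2 then 1 else 0) + b 2) ^ 2 < n 0 ^ 2 + n 1 ^ 2 + n 2 ^ 2 ∧
    ((if cu = 0 then 1 else 0) + b 0) + ((if cu = 1 then 1 else 0) + b 1) +
      ((if cu = 2 then 1 else 0) + b 2) = n 0 + n 1 + n 2 := by
  have e0 := h2 0
  have e1 := h2 1
  have e2 := h2 2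
  clear h2
  fin_cases c <;> fin_cases cu <;> simp at h1 e0 e1 e2 h3 h4 ⊢ <;>
    (rw [e0, e1, e2]
     exact ⟨by nlinarith, by omega⟩)

/-- E1 -/
theorem wt_decr {κ : σ → Fin 3} {f : MvPolynomial σ k} (h : wt κ f ≠ 0) :
    ∃ (e : MvPolynomial (σ ⊕ Bool) k ≃ₐ[k] MvPolynomial (σ ⊕ Bool) k) (κ' : σ ⊕ Bool → Fin 3),
      wt κ' (e (stab k f)) < wt κ f := by
  classical
  rw [wt_eq] at h
  obtain ⟨m, hm, hmw⟩ := Finset.exists_ne_zero_of_sum_ne_zero h
  have hbad : ∃ c, 2 ≤ cnt κ m c := by
    by_contra hc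
    apply hmw
    unfold ww
    rw [if_neg hc]
  have hww : ww κ m = 3 ^ cpl κ m := by
    unfold ww
    rw [if_pos hbad]
  by_cases hd : 4 ≤ m.degree
  · have hm0 : m ≠ 0 := by
      rintro rfl
      simp at hd
    obtain ⟨i, hi, hmi⟩ := exists_var m hm0
    set m1 := m - Finsupp.single i 1 with hm1
    have hd1 : m.degree = 1 + m1.degree := by
      conv_lhs => rw [hmi]
      simp
    have hm10 : m1 ≠ 0 := by
      intro h0
      rw [h0] at hd1
      simp at hd1
      omega
    obtain ⟨j, hj, hmj⟩ := exists_var m1 hm10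
    set b := m1 - Finsupp.single j 1 with hb
    have hd2 : m1.degree = 1 + b.degree := by
      conv_lhs => rw [hmj]
      simp
    have hab : m = (Finsupp.single i 1 + Finsupp.single j 1) + b := by
      rw [add_assoc, ← hmj, ← hmi]
    refine wt_core hm (Finsupp.single i 1 + Finsupp.single j 1) b hab 0 1 (by decide) ?_
    rw [hww]
    have hda : (Finsupp.single i 1 + Finsupp.single j 1 : σ →₀ ℕ).degree = 2 := by simp
    refine lt_of_le_of_lt (add_le_add (ww_le _ _) (ww_le _ _)) (pow_lt ?_ ?_)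
    · refine lt_of_le_of_lt (cpl_le _ _) (lt_of_lt_of_le ?_ (le_cpl κ m))
      rw [deg_t κ, hd1, hd2]
      nlinarith
    · refine lt_of_le_of_lt (cpl_le _ _) (lt_of_lt_of_le ?_ (le_cpl κ m))
      rw [deg_f κ, hda]
      calc (1 + 2) ^ 3 + (1 + 2) ^ 2 < 4 ^ 3 := by norm_num
        _ ≤ m.degree ^ 3 := Nat.pow_le_pow_left hd 3
  · obtain ⟨c0, hc0⟩ := hbad
    have hdeg : cnt κ m 0 + cnt κ m 1 + cnt κ m 2 ≤ 3 := by
      have := cnt_le_degree κ m
      rw [Fin.sum_univ_three] at this
      omega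
    obtain ⟨cu, cv, huv, hcu, hcv, hn⟩ := exists_colours (cnt κ m) hdeg c0 hc0
    obtain ⟨i, hi, hκi⟩ : ∃ i, 1 ≤ m i ∧ κ i = c0 := by
      by_contra hcon
      push Not at hcon
      have : cnt κ m c0 = 0 := by
        unfold cnt
        rw [Finsupp.sum]
        apply Finset.sum_eq_zero
        intro i hi
        rw [if_neg]
        exact hcon i (Nat.one_le_iff_ne_zero.2 (Finsupp.mem_support_iff.1 hi))
      omega
    set b := m - Finsupp.single i 1 with hb
    have hab : m = Finsupp.single i 1 + b := by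
      ext l
      rw [hb, Finsupp.add_apply, Finsupp.tsub_apply, Finsupp.single_apply]
      by_cases hl : i = l
      · subst hl
        rw [if_pos rfl]
        omega
      · rw [if_neg hl]
        omega
    have hcnt : ∀ l, cnt κ m l = (if c0 = l then 1 else 0) + cnt κ b l := by
      intro l
      conv_lhs => rw [hab]
      rw [cnt_add, cnt_single, hκi]
    obtain ⟨hs1, hs2⟩ := cpl_swap (cnt κ m) (cnt κ b) c0 cu hcu hcnt hc0 hn
    refine wt_core hm (Finsupp.single i 1) b hab cu cv huv ?_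
    have h0 : ww (kap κ cu cv) (Finsupp.single (Sum.inr false) 1 +
        (Finsupp.single i 1 : σ →₀ ℕ).mapDomain Sum.inl) = 0 := by
      apply ww_zero_of
      intro c
      rw [cnt_kap_f, cnt_single, hκi]
      by_cases h1 : cv = c
      · rw [if_pos h1, if_neg (fun h2 => hcv (h1.trans h2.symm))]
      · rw [if_neg h1]
        split_ifs <;> omega
    rw [h0, add_zero, hww]
    refine lt_of_le_of_lt (ww_le _ _) (Nat.pow_lt_pow_right (by norm_num) ?_)
    rw [cpl_eq, cpl_eq κ m]
    simp only [cnt_kap_t]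
    rw [hs2]
    omega

end E

end Pool.Agent.H39.MonoR
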