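import Pool.Agent.H39.MonoR.D
import Pool.Agent.H39.MonoR.B3
import Pool.Agent.H39.MonoR.C2
import Pool.Agent.H39.MonoR.E

/-!
# Assembly for project MONO
-/

set_option autoImplicit false

namespace Pool.Agent.H39.MonoR

open MvPolynomial

section

variable {k : Type} [Field k] [Algebra k ℂ] {σ τ : Type}

omit [Algebra k ℂ] in
theorem aeval_ext_rename (e : MvPolynomial σ k →ₐ[k] MvPolynomial τ k) (g : MvPolynomial σ k) :
    aeval (Sum.elim (fun j => rename Sum.inl (e (X j))) (fun b => X (Sum.inr b)) :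
      σ ⊕ Bool → MvPolynomial (τ ⊕ Bool) k) (rename Sum.inl g) = rename Sum.inl (e g) := by
  have : ((aeval (Sum.elim (fun j => rename Sum.inl (e (X j))) (fun b => X (Sum.inr b)) :
      σ ⊕ Bool → MvPolynomial (τ ⊕ Bool) k)).comp (rename Sum.inl) :
        MvPolynomial σ k →ₐ[k] MvPolynomial (τ ⊕ Bool) k) = (rename Sum.inl).comp e := by
    ext j
    simp
  exact DFunLike.congr_fun this g

omit [Algebra k ℂ] in
/-- the extension of an isomorphism to two more variables -/
theorem exists_stab_equiv (e : MvPolynomial σ k ≃ₐ[k] MvPolynomial τ k) (f : MvPolynomial σ k) :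
    ∃ e' : MvPolynomial (σ ⊕ Bool) k ≃ₐ[k] MvPolynomial (τ ⊕ Bool) k,
      e' (stab k f) = stab k (e f) := by
  let a : MvPolynomial (σ ⊕ Bool) k →ₐ[k] MvPolynomial (τ ⊕ Bool) k :=
    aeval (Sum.elim (fun j => rename Sum.inl ((e : MvPolynomial σ k →ₐ[k] MvPolynomial τ k) (X j)))
      (fun b => X (Sum.inr b)))
  let b : MvPolynomial (τ ⊕ Bool) k →ₐ[k] MvPolynomial (σ ⊕ Bool) k :=
    aeval (Sum.elim (fun j => rename Sum.inl
      ((e.symm : MvPolynomial τ k →ₐ[k] MvPolynomial σ k) (X j))) (fun b => X (Sum.inr b)))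
  have ha : ∀ g, a (rename Sum.inl g) = rename Sum.inl (e g) := fun g => aeval_ext_rename _ g
  have hb : ∀ g, b (rename Sum.inl g) = rename Sum.inl (e.symm g) := fun g => aeval_ext_rename _ g
  have ha' : ∀ c, a (X (Sum.inr c)) = X (Sum.inr c) := fun c => by simp [a]
  have hb' : ∀ c, b (X (Sum.inr c)) = X (Sum.inr c) := fun c => by simp [b]
  refine ⟨AlgEquiv.ofAlgHom a b ?_ ?_, ?_⟩
  · apply algHom_ext
    rintro (j | c)
    · have h1 := hb (X j)
      rw [rename_X] at h1
      simp only [AlgHom.comp_apply, AlgHom.id_apply]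
      rw [h1, ha]
      simp
    · simp only [AlgHom.comp_apply, AlgHom.id_apply]
      rw [hb', ha']
  · apply algHom_ext
    rintro (j | c)
    · have h1 := ha (X j)
      rw [rename_X] at h1
      simp only [AlgHom.comp_apply, AlgHom.id_apply]
      rw [h1, hb]
      simp
    · simp only [AlgHom.comp_apply, AlgHom.id_apply]
      rw [ha', hb']
  · simp only [stab, AlgEquiv.ofAlgHom_apply, map_add, map_mul, ha, ha']

omit [Algebra k ℂ] in
theorem IsRoot_equiv (e : MvPolynomial σ k ≃ₐ[k] MvPolynomial τ k) {f : MvPolynomial σ k} {α : ℚ}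
    (h : IsRoot k f α) : IsRoot k (e f) α := by
  intro b hb
  apply h
  have := IsBS_equiv e.symm hb
  simpa using this

omit [Algebra k ℂ] in
theorem Eig_equiv (e : MvPolynomial σ k ≃ₐ[k] MvPolynomial τ k) {f : MvPolynomial σ k} {a : ℤ}
    {b : ℕ} (h : Eig k f a b) : Eig k (e f) a b := by
  obtain ⟨α, h1, z, h2⟩ := h
  exact ⟨α, h1.imp id (IsRoot_equiv e), z, h2⟩

theorem MC'_equiv [Finite σ] [Finite τ] (h : Nat.card σ = Nat.card τ)
    (e : MvPolynomial σ k ≃ₐ[k] MvPolynomial τ k) {f : MvPolynomial σ k} (hf : MC' k f) :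
    MC' k (e f) := by
  obtain ⟨S, h0, h1, h2⟩ := hf
  refine ⟨S, h0, ?_, fun p hp => Eig_equiv e (h2 p hp)⟩
  rw [Zmot_equiv h e]
  exact h1

omit [Algebra k ℂ] in
theorem Eig_stab [CharZero k] {f : MvPolynomial σ k} {a : ℤ} {b : ℕ} (hb : 0 < b)
    (h : Eig k (stab k f) a b) : Eig k f (a + b) b := by
  obtain ⟨α, h1, z, h2⟩ := h
  have hb' : (b : ℚ) ≠ 0 := by exact_mod_cast hb.ne'
  rcases h1 with rfl | h1
  · refine ⟨-1, Or.inl rfl, z - 1, ?_⟩
    push_cast
    rw [← h2]
    field_simp
    ring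
  · rcases IsRoot_stab h1 with rfl | h3
    · refine ⟨-1, Or.inl rfl, z - 1, ?_⟩
      push_cast
      rw [← h2]
      field_simp
      ring
    · refine ⟨α + 1, Or.inr h3, z, ?_⟩
      rw [← h2]
      push_cast
      field_simp
      ring

omit [Algebra k ℂ] in
theorem Eig_neg_one (f : MvPolynomial σ k) : Eig k f (-1) 1 :=
  ⟨-1, Or.inl rfl, 0, by norm_num⟩

theorem MC'_of_stab [Finite σ] {f : MvPolynomial σ k} (h1 : MC' k (stab k f))
    (h2 : MC' k (stab k (stab k f))) : MC' k f := by
  classical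
  have : CharZero k := (algebraMap k ℂ).charZero
  obtain ⟨S1, p1, z1, e1⟩ := h1
  obtain ⟨S2, p2, z2, e2⟩ := h2
  refine ⟨{(-1, 1)} ∪ S1.image (fun p : ℤ × ℕ => (p.1 + p.2, p.2)) ∪
    S2.image (fun p : ℤ × ℕ => (p.1 + 2 * p.2, p.2)), ?_, ?_, ?_⟩
  · intro p hp
    simp only [Finset.mem_union, Finset.mem_singleton, Finset.mem_image] at hp
    rcases hp with (rfl | ⟨q, hq, rfl⟩) | ⟨q, hq, rfl⟩
    · simp
    · exact p1 q hq
    · exact p2 q hq
  · have := Z_mem f S1 S2 z1 z2
    rw [Finset.coe_union, Finset.coe_union, Finset.coe_image, Finset.coe_image,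
      Finset.coe_singleton]
    exact this
  · intro p hp
    simp only [Finset.mem_union, Finset.mem_singleton, Finset.mem_image] at hp
    rcases hp with (rfl | ⟨q, hq, rfl⟩) | ⟨q, hq, rfl⟩
    · exact Eig_neg_one f
    · exact Eig_stab (p1 q hq) (e1 q hq)
    · have h3 := Eig_stab (p2 q hq) (Eig_stab (p2 q hq) (e2 q hq))
      have h4 : q.1 + (q.2 : ℤ) + q.2 = q.1 + 2 * q.2 := by ring
      rw [h4] at h3
      exact h3

/-- the conjecture after `s` stabilisations -/
def MCn (k : Type) [Field k] [Algebra k ℂ] :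
    ℕ → ∀ (σ : Type) [Finite σ], MvPolynomial σ k → Prop
  | 0, _, _, f => MC' k f
  | (s + 1), σ, _, f => MCn k s (σ ⊕ Bool) (stab k f)

theorem MCn_equiv : ∀ (s : ℕ) (σ τ : Type) [Finite σ] [Finite τ] (_ : Nat.card σ = Nat.card τ)
    (e : MvPolynomial σ k ≃ₐ[k] MvPolynomial τ k) (f : MvPolynomial σ k) (_ : MCn k s σ f),
    MCn k s τ (e f)
  | 0, _, _, _, _, h, e, _, hf => MC'_equiv h e hf
  | (s + 1), σ, τ, _, _, h, e, f, hf => by
    obtain ⟨e', he'⟩ := exists_stab_equiv e f
    have h1 : Nat.card (σ ⊕ Bool) = Nat.card (τ ⊕ Bool) := by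
      rw [Nat.card_sum, Nat.card_sum, h]
    have := MCn_equiv s (σ ⊕ Bool) (τ ⊕ Bool) h1 e' (stab k f) hf
    rw [he'] at this
    exact this

theorem MCn_of_succ {σ : Type} [Finite σ] {f : MvPolynomial σ k}
    (h : ∀ s, MCn k s (σ ⊕ Bool) (stab k f)) : ∀ s, MCn k s σ f
  | 0 => MC'_of_stab (h 0) (h 1)
  | (s + 1) => h s

omit [Algebra k ℂ] in
theorem support_stab (f : MvPolynomial σ k) {m : σ ⊕ Bool →₀ ℕ}
    (hm : m ∈ (stab k f).support) : (∃ n ∈ f.support, m = n.mapDomain Sum.inl) ∨
      m = Finsupp.single (Sum.inr true) 1 + Finsupp.single (Sum.inr false) 1 := by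
  classical
  rcases Finset.mem_union.mp (support_add hm) with h | h
  · left
    rw [support_rename_of_injective Sum.inl_injective, Finset.mem_image] at h
    obtain ⟨n, hn, rfl⟩ := h
    exact ⟨n, hn, rfl⟩
  · right
    have h1 : (X (Sum.inr true) * X (Sum.inr false) : MvPolynomial (σ ⊕ Bool) k) =
        monomial (Finsupp.single (Sum.inr true) 1 + Finsupp.single (Sum.inr false) 1) 1 := by
      simp [X, monomial_mul]
    rw [h1] at h
    simpa using support_monomial_subset h

omit [Algebra k ℂ] in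
theorem TriAffine.stab {f : MvPolynomial σ k} (h : TriAffine f) : TriAffine (stab k f) := by
  classical
  obtain ⟨κ, hκ⟩ := h
  refine ⟨Sum.elim κ (fun b => if b then 0 else 1), fun m hm => ?_⟩
  rcases support_stab f hm with ⟨n, hn, rfl⟩ | rfl
  · obtain ⟨h1, h2⟩ := hκ n hn
    have hl : ∀ j, (n.mapDomain (Sum.inl : σ → σ ⊕ Bool)) (Sum.inl j) = n j := fun j =>
      Finsupp.mapDomain_apply Sum.inl_injective n j
    have hr : ∀ b, (n.mapDomain (Sum.inl : σ → σ ⊕ Bool)) (Sum.inr b) = 0 := fun b =>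
      Finsupp.mapDomain_of_notMem_range _ _ (by simp)
    constructor
    · rintro (j | b)
      · rw [hl]; exact h1 j
      · rw [hr]; omega
    · rintro (j | b) (j' | b') hne hc
      · rw [hl, hl]
        exact h2 j j' (fun h => hne (by rw [h])) hc
      · right; exact hr _
      · left; exact hr _
      · left; exact hr _
  · constructor
    · rintro (j | b)
      · simp
      · cases b <;> simp
    · rintro (j | b) (j' | b') hne hc
      · left; simp
      · left; simp
      · right; simp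
      · cases b <;> cases b' <;> simp_all

omit [Algebra k ℂ] in
theorem TriAffine.rename {f : MvPolynomial σ k} (h : TriAffine f) (e : σ ≃ τ) :
    TriAffine (MvPolynomial.rename e f) := by
  classical
  obtain ⟨κ, hκ⟩ := h
  refine ⟨fun j => κ (e.symm j), fun m hm => ?_⟩
  rw [support_rename_of_injective e.injective, Finset.mem_image] at hm
  obtain ⟨n, hn, rfl⟩ := hm
  obtain ⟨h1, h2⟩ := hκ n hn
  have hl : ∀ j, (n.mapDomain e) j = n (e.symm j) := fun j => by
    conv_lhs => rw [← e.apply_symm_apply j]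
    exact Finsupp.mapDomain_apply e.injective n _
  constructor
  · intro j; rw [hl]; exact h1 _
  · intro i j hne hc
    rw [hl, hl]
    exact h2 _ _ (fun h => hne (e.symm.injective h)) hc

omit [Algebra k ℂ] in
theorem totalDegree_stab (f : MvPolynomial σ k) : (stab k f).totalDegree ≠ 0 := by
  classical
  intro h
  have h1 := (totalDegree_eq_zero_iff _ _).mp h
    (Finsupp.single (Sum.inr true) 1 + Finsupp.single (Sum.inr false) 1) ?_ (Sum.inr true)
  · simp at h1
  · rw [mem_support_iff, Pool.Agent.H39.MonoR.stab, coeff_add, coeff_rename_eq_zero]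
    · have h1 : (X (Sum.inr true) * X (Sum.inr false) : MvPolynomial (σ ⊕ Bool) k) =
          monomial (Finsupp.single (Sum.inr true) 1 + Finsupp.single (Sum.inr false) 1) 1 := by
        simp [X, monomial_mul]
      rw [h1]
      simp
    · intro u hu
      have := DFunLike.congr_fun hu (Sum.inr true)
      rw [Finsupp.mapDomain_of_notMem_range _ _ (by simp)] at this
      simp at this

variable (H : ∀ (n : ℕ) (f : MvPolynomial (Fin n) k), TriAffine f → f.totalDegree ≠ 0 → MC' k f)

include H in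
theorem MC'_triAffine_stab [Finite σ] {f : MvPolynomial σ k} (h : TriAffine f) :
    MC' k (stab k f) := by
  have : Fintype (σ ⊕ Bool) := Fintype.ofFinite _
  let e := (Fintype.equivFin (σ ⊕ Bool))
  have h1 := H (Fintype.card (σ ⊕ Bool)) (rename e (stab k f)) (h.stab.rename e) ?_
  · have h2 := MC'_equiv (k := k) ?_ (renameEquiv k e.symm) h1
    · have h3 : (renameEquiv k e.symm) (rename e (stab k f)) = stab k f := by
        simp [rename_rename]
      rw [h3] at h2
      exact h2
    · simp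
  · intro h2
    have h3 : (rename e.symm (rename e (stab k f))).totalDegree ≤ 0 := by
      rw [← h2]
      exact totalDegree_rename_le _ _
    rw [rename_rename] at h3
    simp only [Equiv.symm_comp_self, rename_id] at h3
    exact totalDegree_stab f (Nat.le_zero.mp (by simpa using h3))

include H in
theorem MCn_triAffine : ∀ (s : ℕ) (σ : Type) [Finite σ] (f : MvPolynomial σ k)
    (_ : TriAffine f), MCn k s (σ ⊕ Bool) (stab k f)
  | 0, _, _, _, h => MC'_triAffine_stab H h
  | (s + 1), _, _, f, h => MCn_triAffine s _ (stab k f) h.stab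

include H in
theorem MCn_all : ∀ (n : ℕ) (σ : Type) [Finite σ] (f : MvPolynomial σ k) (κ : σ → Fin 3)
    (_ : wt κ f ≤ n), ∀ s, MCn k s σ f := by
  intro n
  induction n with
  | zero =>
    intro σ _ f κ h
    exact MCn_of_succ fun s => MCn_triAffine H s σ f ⟨κ, triAffine_of_wt (Nat.le_zero.mp h)⟩
  | succ n ih =>
    intro σ _ f κ h
    by_cases h0 : wt κ f = 0
    · exact ih σ f κ (by omega)
    · obtain ⟨e, κ', h1⟩ := wt_decr h0
      have h2 := ih (σ ⊕ Bool) (e (stab k f)) κ' (by omega)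
      refine MCn_of_succ fun s => ?_
      have h3 := MCn_equiv s _ _ rfl e.symm _ (h2 s)
      simpa using h3

include H in
theorem main (n : ℕ) (f : MvPolynomial (Fin n) k) : MC' k f :=
  MCn_all H _ (Fin n) f (fun _ => 0) le_rfl 0

end

end Pool.Agent.H39.MonoR
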