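import Pool.Agent.H39.MonoR.Defs

/-!
# Auxiliary definitions for project MONO
-/

set_option autoImplicit false

namespace Pool.Agent.H39.MonoR

open MvPolynomial

/-- the arcs whose reduction mod `t^i` is a zero of `f` mod `t^i` -/
def Cy (k : Type) [Field k] [Algebra k ℂ] {σ : Type} (N i : ℕ) (f : MvPolynomial σ k) :
    Set (σ × Fin N → ℂ) :=
  {φ | ∀ l < i, PowerSeries.coeff l (arcEval k φ f) = 0}

section

variable {k : Type} [Field k] [Algebra k ℂ] {σ : Type}

/-- the stratum `ord u = i` -/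
def Str {N : ℕ} (i : Fin N) (c : k) (f : MvPolynomial σ k) : Set ((σ ⊕ Bool) × Fin N → ℂ) :=
  {φ | φ ∈ Y k N c (stab k f) ∧ (∀ l < i, φ (Sum.inr true, l) = 0) ∧ φ (Sum.inr true, i) ≠ 0}

end

/-- substitution `T ↦ L T` -/
noncomputable def up (k : Type) [Field k] [Algebra k ℂ] : PowerSeries (M k) →+* PowerSeries (M k) :=
  PowerSeries.rescale (↑(Lu k) : M k)

/-- substitution `T ↦ T / L` -/
noncomputable def dn (k : Type) [Field k] [Algebra k ℂ] : PowerSeries (M k) →+* PowerSeries (M k) :=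
  PowerSeries.rescale (↑(Lu k)⁻¹ : M k)

section

variable {k : Type} [Field k] {σ : Type}

/-- number of variables of colour `c` in a monomial -/
noncomputable def cnt (κ : σ → Fin 3) (m : σ →₀ ℕ) (c : Fin 3) : ℕ := m.sum fun i e => if κ i = c then e else 0

/-- complexity of a monomial -/
noncomputable def cpl (κ : σ → Fin 3) (m : σ →₀ ℕ) : ℕ := m.degree ^ 3 + ∑ c, cnt κ m c ^ 2

open Classical in
/-- total complexity of the monomials which are not tri-affine -/
noncomputable def wt (κ : σ → Fin 3) (f : MvPolynomial σ k) : ℕ :=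
  ∑ m ∈ f.support with ∃ c, 2 ≤ cnt κ m c, 3 ^ cpl κ m

end

end Pool.Agent.H39.MonoR
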